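import Mathlib
import Pool.Agent.Q290.SC.Stm

set_option autoImplicit false

/-! Job TR of project SC (helper290): Euclid's algorithm in the symplectic group, level 1. -/

namespace Pool.Agent.Q158.SC

open Pool.Agent.Q290.SC Pool.Agent.H29R2.MG

variable {g : ℕ}

/-- `v` is in the orbit of `u` -/
def R (S : Finset (Fin g)) (u v : VV g) : Prop := ∃ X ∈ KS 1 S, ac X u = v

theorem R.refl (S : Finset (Fin g)) (u : VV g) : R S u u := ⟨1, one_mem _, ac_one u⟩

theorem R.trans {S : Finset (Fin g)} {u v w : VV g} (h1 : R S u v) (h2 : R S v w) : R S u w := by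
  obtain ⟨X, hX, rfl⟩ := h1
  obtain ⟨Y, hY, rfl⟩ := h2
  exact ⟨Y * X, mul_mem hY hX, ac_mul Y X u⟩

theorem R.symm {S : Finset (Fin g)} {u v : VV g} (h1 : R S u v) : R S v u := by
  obtain ⟨X, hX, rfl⟩ := h1
  exact ⟨X⁻¹, inv_mem hX, ac_self_inv X u⟩

theorem R_T {S : Finset (Fin g)} {v : VV g} (hv : Sup S v) (t : ℤ) (w : VV g) :
    R S w (w + (t * om v w) • v) := ⟨T v t, T_mem hv (one_dvd t), ac_T v t w⟩

theorem R_E {S : Finset (Fin g)} {u v : VV g} (hu : Sup S u) (hv : Sup S v) (h : om u v = 0)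
    (t : ℤ) (w : VV g) : R S w (w + t • (om u w • v + om v w • u)) :=
  ⟨E u v t, E_mem hu hv (one_dvd t), ac_E h t w⟩

theorem R_e {S : Finset (Fin g)} {i : Fin g} (hi : i ∈ S) (t : ℤ) (w : VV g) :
    R S w (w + (t * w (Sum.inr i)) • ve i) := by
  have := R_T (sup_ve hi) t w
  rwa [om_ve] at this

theorem R_f {S : Finset (Fin g)} {i : Fin g} (hi : i ∈ S) (t : ℤ) (w : VV g) :
    R S w (w + (t * w (Sum.inl i)) • vf i) := by
  have := R_T (sup_vf hi) (-t) w
  rwa [om_vf, neg_mul_neg] at this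

/-- the size -/
def N (w : VV g) : ℕ := ∑ j, (w j).natAbs

theorem N_lt (w : VV g) (q : Fin g ⊕ Fin g) (c : ℤ) (v : VV g) (hv : v = Pi.single q 1)
    (h : (w q + c).natAbs < (w q).natAbs) : N (w + c • v) < N w := by
  subst hv
  unfold N
  apply Finset.sum_lt_sum
  · intro j _
    by_cases hj : j = q
    · subst hj; simpa using h.le
    · simp [Pi.single_apply, hj]
  · exact ⟨q, Finset.mem_univ _, by simpa using h⟩

theorem sgn (c d : ℤ) (hc : c ≠ 0) (h : c.natAbs ≤ d.natAbs) :
    ∃ t : ℤ, (d + t * c).natAbs < d.natAbs := by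
  by_cases h1 : (d + 1 * c).natAbs < d.natAbs
  · exact ⟨1, h1⟩
  · refine ⟨-1, ?_⟩
    omega

/-- the vector dual to the basis vector of a coordinate -/
def du : Fin g ⊕ Fin g → VV g
  | Sum.inl i => -vf i
  | Sum.inr i => ve i

/-- the handle -/
def hd : Fin g ⊕ Fin g → Fin g
  | Sum.inl i => i
  | Sum.inr i => i

/-- the other coordinate of the handle -/
def ot : Fin g ⊕ Fin g → Fin g ⊕ Fin g
  | Sum.inl i => Sum.inr i
  | Sum.inr i => Sum.inl i

/-- the basis vector -/
def ba (p : Fin g ⊕ Fin g) : VV g := Pi.single p 1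

theorem om_du (p : Fin g ⊕ Fin g) (w : VV g) : om (du p) w = w p := by
  rcases p with i | i
  · show om (-vf i) w = _
    rw [om_neg_left, om_vf, neg_neg]
  · exact om_ve i w

theorem om_ba (p : Fin g ⊕ Fin g) (w : VV g) : om (ba p) w = w (ot p) ∨
    om (ba p) w = - w (ot p) := by
  rcases p with i | i
  · left; exact om_ve i w
  · right; exact om_vf i w

theorem sup_ba {S : Finset (Fin g)} {p : Fin g ⊕ Fin g} (h : hd p ∈ S) : Sup S (ba p) := by
  rcases p with i | i
  · exact sup_ve h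
  · exact sup_vf h

theorem sup_du {S : Finset (Fin g)} {p : Fin g ⊕ Fin g} (h : hd p ∈ S) : Sup S (du p) := by
  rcases p with i | i
  · exact (sup_vf h).neg
  · exact sup_ve h

theorem hd_mem {S : Finset (Fin g)} {w : VV g} (hw : Sup S w) {p : Fin g ⊕ Fin g}
    (h : w p ≠ 0) : hd p ∈ S := by
  by_contra hp
  rcases p with i | i
  · exact h (hw i hp).1
  · exact h (hw i hp).2

theorem R_sup {S : Finset (Fin g)} {u v : VV g} (h : R S u v) (hu : Sup S u) : Sup S v := by
  obtain ⟨X, hX, rfl⟩ := h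
  exact hu.act (KS_Fx hX)

theorem R_prim {S : Finset (Fin g)} {u v : VV g} (h : R S u v) (hu : ∃ z, om u z = 1) :
    ∃ z, om v z = 1 := by
  obtain ⟨X, hX, rfl⟩ := h
  obtain ⟨z, hz⟩ := hu
  exact ⟨ac X z, by rw [om_ac, hz]⟩

/-- in a minimal vector each handle has at most one nonzero coordinate -/
theorem min_a {S : Finset (Fin g)} {w : VV g} (hw : Sup S w)
    (hm : ∀ v, R S w v → N w ≤ N v) (i : Fin g) : w (Sum.inl i) = 0 ∨ w (Sum.inr i) = 0 := by
  by_contra hcon
  push Not at hcon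
  obtain ⟨ha, hb⟩ := hcon
  have hi : i ∈ S := hd_mem hw (p := Sum.inl i) ha
  rcases le_total (w (Sum.inr i)).natAbs (w (Sum.inl i)).natAbs with h | h
  · obtain ⟨t, ht⟩ := sgn _ _ hb h
    exact absurd (hm _ (R_e hi t w)) (not_le.2 (N_lt w (Sum.inl i) _ _ rfl ht))
  · obtain ⟨t, ht⟩ := sgn _ _ ha h
    exact absurd (hm _ (R_f hi t w)) (not_le.2 (N_lt w (Sum.inr i) _ _ rfl ht))

/-- the elementary move between two handles -/
theorem R_pq {S : Finset (Fin g)} {w : VV g} {p q : Fin g ⊕ Fin g} (hp : hd p ∈ S)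
    (hq : hd q ∈ S) (hpq : hd p ≠ hd q) (h0 : w (ot q) = 0) (t : ℤ) :
    R S w (w + (t * w p) • ba q) := by
  have ho : om (du p) (ba q) = 0 := by
    rw [om_du]
    have : p ≠ q := fun h => hpq (h ▸ rfl)
    simp [ba, this]
  have h1 : om (ba q) w = 0 := by
    rcases om_ba q w with h | h
    · rw [h, h0]
    · rw [h, h0, neg_zero]
  have := R_E (sup_du hp) (sup_ba hq) ho t w
  rw [om_du, h1, zero_smul, add_zero, smul_smul] at this
  exact this

/-- a minimal vector has at most one nonzero coordinate -/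
theorem min_b {S : Finset (Fin g)} {w : VV g} (hw : Sup S w)
    (hm : ∀ v, R S w v → N w ≤ N v) {p q : Fin g ⊕ Fin g} (hp : w p ≠ 0) (hq : w q ≠ 0) :
    p = q := by
  have ho : ∀ r : Fin g ⊕ Fin g, w r ≠ 0 → w (ot r) = 0 := by
    intro r hr
    rcases r with i | i
    · exact (min_a hw hm i).resolve_left hr
    · exact (min_a hw hm i).resolve_right hr
  by_cases hh : hd p = hd q
  · rcases p with i | i <;> rcases q with j | j
    · have : i = j := hh
      rw [this]
    · have : i = j := hh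
      subst this
      exact absurd (ho _ hp) hq
    · have : i = j := hh
      subst this
      exact absurd (ho _ hp) hq
    · have : i = j := hh
      rw [this]
  · exfalso
    have hpS := hd_mem hw hp
    have hqS := hd_mem hw hq
    rcases le_total (w p).natAbs (w q).natAbs with h | h
    · obtain ⟨t, ht⟩ := sgn _ _ hp h
      exact absurd (hm _ (R_pq hpS hqS hh (ho q hq) t)) (not_le.2 (N_lt w q _ _ rfl ht))
    · obtain ⟨t, ht⟩ := sgn _ _ hq h
      exact absurd (hm _ (R_pq hqS hpS (Ne.symm hh) (ho p hp) t))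
        (not_le.2 (N_lt w p _ _ rfl ht))

theorem exists_min (S : Finset (Fin g)) (w : VV g) :
    ∃ v, R S w v ∧ ∀ u, R S v u → N v ≤ N u := by
  classical
  have hex : ∃ n, ∃ v, R S w v ∧ N v = n := ⟨_, w, R.refl S w, rfl⟩
  obtain ⟨v, hv, hn⟩ := Nat.find_spec hex
  refine ⟨v, hv, fun u hu => ?_⟩
  rw [hn]
  exact Nat.find_min' hex ⟨u, hv.trans hu, rfl⟩

section
variable {S : Finset (Fin g)}

theorem ve_l (i : Fin g) : (ve i : VV g) (Sum.inl i) = 1 := by simp [ve]
theorem ve_r (i : Fin g) : (ve i : VV g) (Sum.inr i) = 0 := by simp [ve]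
theorem vf_l (i : Fin g) : (vf i : VV g) (Sum.inl i) = 0 := by simp [vf]
theorem vf_r (i : Fin g) : (vf i : VV g) (Sum.inr i) = 1 := by simp [vf]

/-- `e_i` and `c f_i` -/
theorem R_ef {i : Fin g} (hi : i ∈ S) (c d : ℤ) (h : c * d = 1) :
    R S (c • ve i) (d • vf i : VV g) := by
  have h1 := R_f hi (d * d) (c • ve i)
  have e1 : (c • ve i + (d * d * (c • ve i : VV g) (Sum.inl i)) • vf i : VV g) =
      c • ve i + d • vf i := by
    rw [Pi.smul_apply, ve_l, smul_eq_mul, mul_one]
    have : d * d * c = d := by linear_combination d * h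
    rw [this]
  rw [e1] at h1
  have h2 := R_e hi (-(c * c)) (c • ve i + d • vf i)
  have e2 : (c • ve i + d • vf i + (-(c * c) * (c • ve i + d • vf i : VV g) (Sum.inr i)) • ve i
      : VV g) = d • vf i := by
    rw [Pi.add_apply, Pi.smul_apply, Pi.smul_apply, ve_r, vf_r, smul_eq_mul, smul_eq_mul,
      mul_zero, zero_add, mul_one]
    have : -(c * c) * d = -c := by linear_combination -c * h
    rw [this, neg_smul]
    abel
  rw [e2] at h2
  exact h1.trans h2

theorem R_ef' {i : Fin g} (hi : i ∈ S) (c d : ℤ) (h : c * d = 1) :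
    R S (c • ve i) ((-d) • vf i : VV g) := by
  have h1 := R_f hi (-(d * d)) (c • ve i)
  have e1 : (c • ve i + (-(d * d) * (c • ve i : VV g) (Sum.inl i)) • vf i : VV g) =
      c • ve i + (-d) • vf i := by
    rw [Pi.smul_apply, ve_l, smul_eq_mul, mul_one]
    have : -(d * d) * c = -d := by linear_combination -d * h
    rw [this]
  rw [e1] at h1
  have h2 := R_e hi (c * c) (c • ve i + (-d) • vf i)
  have e2 : (c • ve i + (-d) • vf i +
      ((c * c) * (c • ve i + (-d) • vf i : VV g) (Sum.inr i)) • ve i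
      : VV g) = (-d) • vf i := by
    rw [Pi.add_apply, Pi.smul_apply, Pi.smul_apply, ve_r, vf_r, smul_eq_mul, smul_eq_mul,
      mul_zero, zero_add, mul_one]
    have : (c * c) * -d = -c := by linear_combination -c * h
    rw [this, neg_smul c]
    abel
  rw [e2] at h2
  exact h1.trans h2

/-- all `± e_i`, `± f_i` are in the orbit of `e_i` -/
theorem R_ba {p : Fin g ⊕ Fin g} (hp : hd p ∈ S) (c : ℤ) (hc : c = 1 ∨ c = -1) :
    R S (c • ba p) (ve (hd p) : VV g) := by
  have key : ∀ i : Fin g, i ∈ S → R S ((-1 : ℤ) • ve i) (ve i : VV g) := by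
    intro i hi
    have h1 := R_ef (S := S) hi (-1) (-1) (by norm_num)
    have h2 := R_ef' (S := S) hi 1 1 (by norm_num)
    have h3 := h1.trans h2.symm
    rwa [one_smul] at h3
  rcases p with i | i
  · rcases hc with rfl | rfl
    · rw [one_smul]; exact R.refl S _
    · exact key i hp
  · rcases hc with rfl | rfl
    · have h2 := R_ef (S := S) hp 1 1 (by norm_num)
      rw [one_smul (M := ℤ) (b := (ve (hd (Sum.inr i)) : VV g))] at h2
      exact h2.symm
    · have h2 := R_ef' (S := S) hp 1 1 (by norm_num)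
      rw [one_smul (M := ℤ) (b := (ve (hd (Sum.inr i)) : VV g))] at h2
      exact h2.symm

theorem R_ee {i k : Fin g} (hi : i ∈ S) (hk : k ∈ S) : R S (ve i) (ve k : VV g) := by
  by_cases h : i = k
  · subst h; exact R.refl S _
  have h1 := R_pq (S := S) (w := (ve i : VV g)) (p := Sum.inl i) (q := Sum.inl k) hi hk h
    (by simp [ot, ve]) 1
  have h2 := R_pq (S := S) (w := (ve k : VV g)) (p := Sum.inl k) (q := Sum.inl i) hk hi
    (Ne.symm h) (by simp [ot, ve]) 1
  rw [ve_l, mul_one, one_smul] at h1 h2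
  have e : (ve i + ba (Sum.inl k) : VV g) = ve k + ba (Sum.inl i) := by
    show (ve i + ve k : VV g) = ve k + ve i
    exact add_comm _ _
  rw [e] at h1
  exact h1.trans h2.symm

end

theorem tr : S_TR := by
  intro g S k hk w hw hz
  obtain ⟨v, hv, hm⟩ := exists_min S w
  have hvS := R_sup hv hw
  obtain ⟨z, hz⟩ := R_prim hv hz
  have hne : ∃ p, v p ≠ 0 := by
    by_contra hcon
    push Not at hcon
    have : v = 0 := funext hcon
    rw [this] at hz
    have h0 := om_smul_left (g := g) 0 0 z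
    rw [zero_smul, zero_mul] at h0
    rw [h0] at hz
    exact absurd hz (by norm_num)
  obtain ⟨p, hp⟩ := hne
  have hvp : v = v p • ba p := by
    funext q
    by_cases hq : q = p
    · subst hq; simp [ba]
    · have : v q = 0 := by
        by_contra h
        exact hq (min_b hvS hm h hp)
      rw [this]
      simp [ba, hq]
  have hu : v p = 1 ∨ v p = -1 := by
    rw [hvp, om_smul_left] at hz
    exact Int.isUnit_iff.1 (IsUnit.of_mul_eq_one _ hz)
  have h1 : R S v (ve (hd p)) := by
    rw [hvp]; exact R_ba (hd_mem hvS hp) _ hu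
  exact (hv.trans h1).trans (R_ee (hd_mem hvS hp) hk)

end Pool.Agent.Q158.SC
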